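import Mathlib
import Pool.Agent.Y268.GD.Retr
import Pool.Agent.Y268.GD.Spaces

set_option autoImplicit false

/-!
The small dimension, the global dimension and the bidimension are infinite for `C(βℕ)`, for
`C(K)` whenever `K` is an infinite basically disconnected compact space (for instance an infinite
extremally disconnected one) or the remainder of `βℕ`, and for every unital Banach algebra,
commutative or not, of which `C(βℕ)` is a retract.
-/

namespace Pool.Agent.Results.MP_4953ed_an.RetractInfinite

open Pool.Agent.Helper832.CD Pool.Agent.H203R3.BH Pool.Agent.W667.BN Pool.Agent.Y268.GD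

/-- The small dimension, the global dimension and the bidimension of `A` are infinite. -/
def AllInfinite (A : Type) [NormedRing A] [NormedAlgebra ℂ A] [CompleteSpace A] : Prop :=
  ds A = ⊤ ∧ dg A = ⊤ ∧ db A = ⊤

/-- `q` is a point of `βℕ ∖ ℕ`. -/
def Free (q : StoneCech ℕ) : Prop := q ∉ Set.range (stoneCechUnit : ℕ → StoneCech ℕ)

instance : CompactSpace {q : StoneCech ℕ // Free q} := inferInstanceAs (CompactSpace Rem)

/-- The closure of every cozero set is open. -/
def BasicallyDisconnected (K : Type) [TopologicalSpace K] : Prop :=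
  ∀ f : C(K, ℝ), IsOpen (closure {x | f x ≠ 0})

/-- `i : C(βℕ) → A` and `p : A → C(βℕ)` are multiplicative and `p ∘ i` is the identity. -/
def IsRetract {A : Type} [NormedRing A] [NormedAlgebra ℂ A] (i : C(StoneCech ℕ, ℂ) →L[ℂ] A)
    (p : A →L[ℂ] C(StoneCech ℕ, ℂ)) : Prop :=
  (∀ f g, i (f * g) = i f * i g) ∧ (∀ a b, p (a * b) = p a * p b) ∧ ∀ f, p (i f) = f

/-- Composition with a continuous map as a bounded operator. -/
noncomputable def pull {K L : Type} [TopologicalSpace K] [CompactSpace K] [TopologicalSpace L]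
    [CompactSpace L] (r : C(K, L)) : C(L, ℂ) →L[ℂ] C(K, ℂ) :=
  LinearMap.mkContinuous
    { toFun := fun f => f.comp r
      map_add' := fun _ _ => rfl
      map_smul' := fun _ _ => rfl } 1 (fun f => by
    rw [one_mul, ContinuousMap.norm_le _ (norm_nonneg f)]
    intro x
    exact f.norm_coe_le_norm (r x))

theorem space {K : Type} [TopologicalSpace K] [CompactSpace K]
    (j : C(StoneCech ℕ, K)) (r : C(K, StoneCech ℕ)) (h : ∀ x, r (j x) = x) :
    (∀ q : StoneCech ℕ, Free q → (ptMod (j q)).dh = ⊤) ∧ AllInfinite C(K, ℂ) := by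
  obtain ⟨h1, h2⟩ := retract_main (A := C(K, ℂ)) (pull r) (pull j) (fun _ _ => rfl)
    (fun _ _ => rfl) (fun f => ContinuousMap.ext fun x => congrArg f (h x))
  exact ⟨fun q hq => h1 q hq (ptMod (j q)) (ContinuousLinearEquiv.refl ℂ ℂ) fun _ _ => rfl, h2⟩

/-- (1) The answer to Q1: `ds`, `dg` and `db` of `C(βℕ)` are infinite.
(2) The same for `C(K)`, for every infinite compact Hausdorff space `K` in which the closure of
every cozero set is open.
(3) The same for `C(βℕ ∖ ℕ)`.
(4) The same for every compact Hausdorff space `K` which retracts onto a copy of `βℕ`; moreover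
the one-dimensional module at the image of any point of `βℕ ∖ ℕ` has infinite dimension.
(5) The same for every unital Banach algebra `A` with bounded homomorphisms
`i : C(βℕ) → A` and `p : A → C(βℕ)` such that `p ∘ i` is the identity; moreover every
one-dimensional module with the action `a z = p(a)(q) z`, `q ∈ βℕ ∖ ℕ`, has infinite dimension. -/
theorem result :
    AllInfinite C(StoneCech ℕ, ℂ) ∧
    (∀ (K : Type) [TopologicalSpace K] [CompactSpace K] [T2Space K] [Infinite K],
      BasicallyDisconnected K → AllInfinite C(K, ℂ)) ∧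
    AllInfinite C({q : StoneCech ℕ // Free q}, ℂ) ∧
    (∀ (K : Type) [TopologicalSpace K] [CompactSpace K] [T2Space K]
      (j : C(StoneCech ℕ, K)) (r : C(K, StoneCech ℕ)), (∀ x, r (j x) = x) →
        (∀ q, Free q → (ptMod (j q)).dh = ⊤) ∧ AllInfinite C(K, ℂ)) ∧
    (∀ (A : Type) [NormedRing A] [NormedAlgebra ℂ A] [CompleteSpace A]
      (i : C(StoneCech ℕ, ℂ) →L[ℂ] A) (p : A →L[ℂ] C(StoneCech ℕ, ℂ)), IsRetract i p →
        (∀ q, Free q → ∀ (X : LMod A) (e : ℂ ≃L[ℂ] X.carrier),
          (∀ a z, X.act a (e z) = e (p a q * z)) → X.dh = ⊤) ∧ AllInfinite A) := by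
  refine ⟨(space (ContinuousMap.id _) (ContinuousMap.id _) fun _ => rfl).2, ?_, ?_, ?_, ?_⟩
  · intro K _ _ _ _ hK
    obtain ⟨j, r, h⟩ := exists_retraction_bd hK
    exact (space j r h).2
  · obtain ⟨j, r, h⟩ := exists_retraction_rem exists_free
    exact (@space {q : StoneCech ℕ // Free q} instTopologicalSpaceSubtype inferInstance j r h).2
  · intro K _ _ _ j r h
    exact space j r h
  · intro A _ _ _ i p h
    exact retract_main i p h.1 h.2.1 h.2.2

end Pool.Agent.Results.MP_4953ed_an.RetractInfinite
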